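import Pool.Agent.W844.LIS.Main

/-!
# The longest increasing subsequence of a random walk is at most `√n (log n)^a`

Outline. Let `A_k(x) = E|x + S_{4^k}| - |x|`, the expected (soft) local time of the walk at `-x`
during `4^k` steps. For a nondecreasing path `g` let `LT_k(g)` be the sum of
`A_k(S_{j 4^k} - g_j)` over the time blocks of length `4^k`, and let `Y_k` be the supremum over all
nondecreasing `g`. Then `LIS * E|X| ≤ Y_0`. The four-fold sum of `A_k` over a block of length
`4^(k+1)` has conditional mean exactly `A_{k+1}` (telescoping), and it is bounded, so an exponential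
inequality for one fixed path and a union bound over rounded paths give
`Y_k ≤ (1 + O(1/K)) Y_{k+1} + O(K^5 2^K)`, `n = 4^K`; the rounding errors are controlled by the
Lipschitz property of `A_k` and by the lower bound `E|S_m| ≥ c √m`.
-/

set_option autoImplicit false

open MeasureTheory ProbabilityTheory Filter Topology

namespace Pool.Agent.Results.MP_05a99f_pr.PolylogLIS

/-- The length of the longest weakly increasing subsequence of `s 0, ..., s (n - 1)`: the largest
number of elements of a set of indices below `n` on which `s` is nondecreasing. -/
noncomputable def lis (s : ℕ → ℝ) (n : ℕ) : ℕ :=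
  sSup {m : ℕ | ∃ I : Finset ℕ, I ⊆ Finset.range n ∧ MonotoneOn s (I : Set ℕ) ∧ I.card = m}

/-- For every random walk `S k = X 0 + ... + X (k - 1)` with i.i.d. real steps of mean zero and
finite positive variance and for every exponent `a > 5`, the longest weakly increasing subsequence
of `S 0, ..., S (n - 1)` has length at most `√n (log n)^a` with probability tending to one. -/
theorem result {Ω : Type*} [MeasurableSpace Ω] (μ : Measure Ω) [IsProbabilityMeasure μ]
    (X : ℕ → Ω → ℝ) (hmeas : ∀ i, Measurable (X i)) (hindep : iIndepFun X μ)
    (hident : ∀ i, IdentDistrib (X i) (X 0) μ μ) (hsq : MemLp (X 0) 2 μ)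
    (hmean : ∫ ω, X 0 ω ∂μ = 0) (hvar : 0 < Var[X 0; μ]) (a : ℝ) (ha : 5 < a) :
    Tendsto (fun n : ℕ => μ {ω | (lis (fun k => ∑ i ∈ Finset.range k, X i ω) n : ℝ) ≤
      √n * (Real.log n) ^ a}) atTop (𝓝 1) := by
  have hw : Pool.Agent.W844.LIS.Walk μ X :=
    { prob := inferInstance
      meas := hmeas
      indep := hindep
      ident := hident
      sq := hsq
      mean := hmean
      var := by
        rw [variance_of_integral_eq_zero (hmeas 0).aemeasurable hmean] at hvar
        exact hvar }
  exact hw.main a ha

end Pool.Agent.Results.MP_05a99f_pr.PolylogLIS
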